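import Pool.Agent.Helper89.UB.Stmts

set_option autoImplicit false

open Finset

namespace Pool.Agent.Helper89.UB

theorem bin_fz {n : ℕ} (E : Finset (Finset (Fin n))) (h0 : Al E ∅) (S : Finset (Fin n)) :
    fz E S = fp E S + (if S = ∅ then 1 else 0) := by
  classical
  unfold fz fp
  by_cases hS : S = ∅
  · subst hS
    simp [h0]
  · have h1 : S.Nonempty := nonempty_iff_ne_empty.2 hS
    simp [h1, hS]

theorem bin_zero {n : ℕ} (E : Finset (Finset (Fin n))) (m : ℕ) :
    ∀ W : Finset (Fin n), W.card < m → pw (fp E) m W = 0 := by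
  classical
  induction m with
  | zero =>
    intro W hW
    exact absurd hW (Nat.not_lt_zero _)
  | succ m ih =>
    intro W hW
    rw [pw]
    apply sum_eq_zero
    intro S hS
    rw [mem_powerset] at hS
    rcases S.eq_empty_or_nonempty with h | h
    · subst h
      have : fp E (∅ : Finset (Fin n)) = 0 := by
        unfold fp
        simp
      rw [this, zero_mul]
    · have h1 : 1 ≤ S.card := card_pos.2 h
      have h2 : (W \ S).card = W.card - S.card := card_sdiff_of_subset hS
      have h3 := card_le_card hS
      rw [ih (W \ S) (by omega), mul_zero]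

theorem bin_main {n : ℕ} (E : Finset (Finset (Fin n))) (h0 : Al E ∅) (N : ℕ) (q : ℕ) :
    ∀ W : Finset (Fin n), W.card ≤ N →
      pw (fz E) q W = ∑ m ∈ range (N + 1), (q.choose m : ℤ) * pw (fp E) m W := by
  classical
  induction q with
  | zero =>
    intro W _
    rw [sum_eq_single 0]
    · simp [pw]
    · intro m _ hm
      rw [Nat.choose_eq_zero_of_lt (Nat.pos_of_ne_zero hm)]
      simp
    · intro h
      exact absurd (mem_range.2 (Nat.succ_pos N)) h
  | succ q ih =>
    intro W hW
    have h1 : pw (fz E) (q + 1) W =
        ∑ S ∈ W.powerset, fp E S * pw (fz E) q (W \ S) + pw (fz E) q W := by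
      rw [pw]
      have h2 : ∀ S ∈ W.powerset, fz E S * pw (fz E) q (W \ S) =
          fp E S * pw (fz E) q (W \ S) + (if S = ∅ then pw (fz E) q (W \ S) else 0) := by
        intro S _
        rw [bin_fz E h0 S]
        split_ifs <;> ring
      rw [sum_congr rfl h2, sum_add_distrib, sum_ite_eq' W.powerset ∅]
      rw [if_pos (empty_mem_powerset W), sdiff_empty]
    have h2 : ∑ S ∈ W.powerset, fp E S * pw (fz E) q (W \ S) =
        ∑ m ∈ range (N + 1), (q.choose m : ℤ) * pw (fp E) (m + 1) W := by
      have h3 : ∀ S ∈ W.powerset, fp E S * pw (fz E) q (W \ S) =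
          ∑ m ∈ range (N + 1), (q.choose m : ℤ) * (fp E S * pw (fp E) m (W \ S)) := by
        intro S _
        rw [ih (W \ S) ((card_le_card sdiff_subset).trans hW), mul_sum]
        apply sum_congr rfl
        intro m _
        ring
      rw [sum_congr rfl h3, sum_comm]
      apply sum_congr rfl
      intro m _
      rw [← mul_sum]
      rfl
    rw [h1, h2, ih W hW, sum_range_succ, bin_zero E (N + 1) W (by omega), mul_zero, add_zero,
      sum_range_succ' _ N, sum_range_succ' _ N, ← add_assoc, ← sum_add_distrib]
    congr 1
    · apply sum_congr rfl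
      intro m _
      rw [Nat.choose_succ_succ]
      push_cast
      ring
    · rw [Nat.choose_zero_right, Nat.choose_zero_right]

theorem st_BIN : ST_BIN := by
  intro n E h0 q W
  exact bin_main E h0 W.card q W le_rfl

end Pool.Agent.Helper89.UB
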