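import Pool.Agent.Helper89.UB.Stmts

set_option autoImplicit false

open Finset

namespace Pool.Agent.Helper89.UB

theorem ci_int (m : ℤ) :
    ∫ t in (-Real.pi)..Real.pi, Complex.exp (((m : ℂ) * Complex.I) * (t : ℂ)) =
      if m = 0 then (2 * Real.pi : ℂ) else 0 := by
  split_ifs with h
  · subst h
    simp
    ring
  · have hc : (m : ℂ) * Complex.I ≠ 0 :=
      mul_ne_zero (Int.cast_ne_zero.2 h) Complex.I_ne_zero
    rw [integral_exp_mul_complex hc, div_eq_zero_iff]
    left
    rw [sub_eq_zero]
    have h1 : (m : ℂ) * Complex.I * (Real.pi : ℂ) =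
        (m : ℂ) * Complex.I * ((-Real.pi : ℝ) : ℂ) + m * (2 * Real.pi * Complex.I) := by
      push_cast
      ring
    rw [h1, Complex.exp_add, Complex.exp_int_mul_two_pi_mul_I, mul_one]

theorem st_CI : ST_CI := by
  intro N ρ c hρ
  have hterm : ∀ (k : ℕ) (t : ℝ),
      (c * zt ρ t) ^ k / (k.factorial : ℂ) * Complex.exp (-((N : ℂ) * t * Complex.I)) =
      (c * ρ) ^ k / (k.factorial : ℂ) *
        Complex.exp (((((k : ℤ) - (N : ℤ) : ℤ) : ℂ) * Complex.I) * (t : ℂ)) := by
    intro k t
    have h1 : (((((k : ℤ) - (N : ℤ) : ℤ) : ℂ) * Complex.I) * (t : ℂ)) =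
        (k : ℂ) * ((t : ℂ) * Complex.I) + -((N : ℂ) * t * Complex.I) := by
      push_cast
      ring
    rw [h1, Complex.exp_add, Complex.exp_nat_mul, zt]
    ring
  have hS : HasSum (fun k : ℕ => ∫ t in (-Real.pi)..Real.pi, (c * ρ) ^ k / (k.factorial : ℂ) *
        Complex.exp (((((k : ℤ) - (N : ℤ) : ℤ) : ℂ) * Complex.I) * (t : ℂ)))
      (∫ t in (-Real.pi)..Real.pi, Complex.exp (c * zt ρ t) *
        Complex.exp (-((N : ℂ) * t * Complex.I))) := by
    refine intervalIntegral.hasSum_integral_of_dominated_convergence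
      (fun k _ => (‖c * ρ‖) ^ k / (k.factorial : ℝ)) ?_ ?_ ?_ ?_ ?_
    · intro k
      refine Continuous.aestronglyMeasurable ?_
      fun_prop
    · intro k
      refine Filter.Eventually.of_forall fun t _ => ?_
      rw [norm_mul, norm_div, norm_pow]
      have h1 : ‖Complex.exp (((((k : ℤ) - (N : ℤ) : ℤ) : ℂ) * Complex.I) * (t : ℂ))‖ = 1 := by
        rw [Complex.norm_exp]
        have : ((((((k : ℤ) - (N : ℤ) : ℤ) : ℂ) * Complex.I) * (t : ℂ))).re = 0 := by
          simp [Complex.mul_re]
        rw [this, Real.exp_zero]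
      rw [h1, mul_one, Complex.norm_natCast]
    · refine Filter.Eventually.of_forall fun t _ => ?_
      exact Real.summable_pow_div_factorial _
    · exact intervalIntegrable_const
    · refine Filter.Eventually.of_forall fun t _ => ?_
      have h1 : HasSum (fun k : ℕ => (c * zt ρ t) ^ k / (k.factorial : ℂ))
          (Complex.exp (c * zt ρ t)) := by
        rw [Complex.exp_eq_exp_ℂ]
        exact NormedSpace.expSeries_div_hasSum_exp _
      have h2 := h1.mul_right (Complex.exp (-((N : ℂ) * t * Complex.I)))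
      refine h2.congr_fun ?_
      intro k
      exact (hterm k t).symm
  have hval : ∀ k : ℕ, ∫ t in (-Real.pi)..Real.pi, (c * ρ) ^ k / (k.factorial : ℂ) *
        Complex.exp (((((k : ℤ) - (N : ℤ) : ℤ) : ℂ) * Complex.I) * (t : ℂ)) =
        if k = N then 2 * Real.pi * (c * ρ) ^ N / (N.factorial : ℂ) else 0 := by
    intro k
    rw [intervalIntegral.integral_const_mul, ci_int]
    by_cases h : k = N
    · subst h
      simp only [sub_self, if_true]
      ring
    · have h1 : ((k : ℤ) - (N : ℤ)) ≠ 0 := by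
        intro h2
        apply h
        omega
      rw [if_neg h1, if_neg h, mul_zero]
  simp only [hval] at hS
  exact (hS.unique (hasSum_ite_eq N _)).trans rfl

end Pool.Agent.Helper89.UB
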